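import Pool.Agent.H370R3.BX.FinalThm

/-!
# Mod 2 connectivity and coindex of the box complex `B_0(G)`

For every finite simple graph `G`, `conn_{Z_2}(B_0(G)) + 1 ≤ coind(B_0(G))`.
-/

set_option autoImplicit false

namespace Pool.Agent.Results.MP_653b6e_gt.ModTwoConnectivity

open Finset

/-- `a` is a simplex of the box complex `B_0(G)` on `V × {false, true}`; it stands for the pair
`A = {v | (v, false) ∈ a}`, `B = {w | (w, true) ∈ a}`: every vertex of `A` is adjacent to every
vertex of `B` (hence `A` and `B` are disjoint; either may be empty). -/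
def IsBoxSimplex {V : Type} (G : SimpleGraph V) (a : Finset (V × Bool)) : Prop :=
  ∀ v w, (v, false) ∈ a → (w, true) ∈ a → G.Adj v w

open Classical in
/-- the support of a function -/
noncomputable def support {W : Type} [Fintype W] (x : W → ℝ) : Finset W :=
  Finset.univ.filter fun w => x w ≠ 0

/-- the geometric realization of `B_0(G)`: nonnegative weights of sum one whose support is a
simplex, with the topology of the finite dimensional space `V × Bool → ℝ` -/
def Realization {V : Type} [Fintype V] (G : SimpleGraph V) : Type :=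
  {x : V × Bool → ℝ // (∀ w, 0 ≤ x w) ∧ ∑ w, x w = 1 ∧ IsBoxSimplex G (support x)}

instance {V : Type} [Fintype V] (G : SimpleGraph V) : TopologicalSpace (Realization G) :=
  inferInstanceAs (TopologicalSpace {x : V × Bool → ℝ //
    (∀ w, 0 ≤ x w) ∧ ∑ w, x w = 1 ∧ IsBoxSimplex G (support x)})

/-- the exchange of the two copies of a vertex -/
def flip {V : Type} (w : V × Bool) : V × Bool := (w.1, !w.2)

/-- a continuous equivariant map from the sphere `S^n` with the antipodal action to `B_0(G)` with
the action exchanging the two parts -/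
def HasEquivariantMap {V : Type} [Fintype V] (G : SimpleGraph V) (n : ℕ) : Prop :=
  ∃ f : C(Metric.sphere (0 : EuclideanSpace ℝ (Fin (n + 1))) 1, Realization G),
    ∀ x, (f (-x)).1 = (f x).1 ∘ flip

open Classical in
/-- for a finite simplicial complex on the vertex set `W` with set of simplices `S` (the empty
simplex is included): the reduced simplicial homology `H_{m-1}(S; Z_2)` vanishes. A chain is a
function on finsets with values in `ZMod 2`, supported on simplices with `m` elements; the
coefficient of its boundary at `a` is the sum of the coefficients of `a ∪ {w}`, `w ∉ a`. -/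
def ReducedHomologyVanishes {W : Type} [Fintype W] (S : Finset W → Prop) (m : ℕ) : Prop :=
  ∀ f : Finset W → ZMod 2, (∀ a, f a ≠ 0 → S a ∧ a.card = m) →
    (∀ a, ∑ w ∈ Finset.univ \ a, f (insert w a) = 0) →
    ∃ g : Finset W → ZMod 2, (∀ a, g a ≠ 0 → S a ∧ a.card = m + 1) ∧
      ∀ a, f a = ∑ w ∈ Finset.univ \ a, g (insert w a)

/-- the reduced homology `H_{m-1}(B_0(G); Z_2)` vanishes -/
def HomologyVanishes {V : Type} [Fintype V] (G : SimpleGraph V) (m : ℕ) : Prop :=
  ReducedHomologyVanishes (IsBoxSimplex G) m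

/-- `conn_{Z_2}(B_0(G))`: the supremum of the integers `z ≥ -2` such that the reduced mod 2
homology vanishes in all dimensions `≤ z` (dimensions are `m - 1`, `m = 0, 1, …`) -/
noncomputable def connZ2 {V : Type} [Fintype V] (G : SimpleGraph V) : EReal :=
  sSup ((fun z : ℤ => ((z : ℝ) : EReal)) ''
    {z | -2 ≤ z ∧ ∀ m : ℕ, (m : ℤ) - 1 ≤ z → HomologyVanishes G m})

/-- `coind(B_0(G))`: the supremum of the `n` such that there is an equivariant map from `S^n`
(and `-1` if there is none) -/
noncomputable def coind {V : Type} [Fintype V] (G : SimpleGraph V) : EReal :=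
  sSup ((fun z : ℤ => ((z : ℝ) : EReal)) ''
    {z | z = -1 ∨ ∃ n : ℕ, z = n ∧ HasEquivariantMap G n})

/-- For every finite simple graph `G`: if the reduced mod 2 homology of `B_0(G)` vanishes in all
dimensions `≤ n - 1`, then there is an equivariant map `S^n → B_0(G)`; in other words
`conn_{Z_2}(B_0(G)) + 1 ≤ coind(B_0(G))`. -/
theorem result :
    (∀ (V : Type) [Fintype V] (G : SimpleGraph V) (n : ℕ),
      (∀ m, m ≤ n → HomologyVanishes G m) → HasEquivariantMap G n) ∧
    (∀ (V : Type) [Fintype V] (G : SimpleGraph V), connZ2 G + 1 ≤ coind G) := by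
  have main : ∀ (V : Type) [Fintype V] (G : SimpleGraph V) (n : ℕ),
      (∀ m, m ≤ n → HomologyVanishes G m) → HasEquivariantMap G n := by
    intro V _ G n h
    exact Pool.Agent.H370R3.BX.final_thm V G n h
  refine ⟨main, fun V _ G => ?_⟩
  have key : ∀ z : ℤ, -2 ≤ z → (∀ m : ℕ, (m : ℤ) - 1 ≤ z → HomologyVanishes G m) →
      (((z : ℝ) : EReal)) + 1 ≤ coind G := by
    intro z hz h
    have e : (((z : ℝ) : EReal)) + 1 = (((z + 1 : ℤ) : ℝ) : EReal) := by
      push_cast
      rfl
    rw [e]
    refine le_sSup ⟨z + 1, ?_, rfl⟩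
    rcases eq_or_lt_of_le hz with h' | h'
    · left; omega
    · right
      refine ⟨(z + 1).toNat, by omega, main V G _ fun m hm => h m (by omega)⟩
  have h1 : (1 : EReal) = ((1 : ℝ) : EReal) := rfl
  have : connZ2 G ≤ coind G - 1 := by
    refine sSup_le ?_
    rintro _ ⟨z, ⟨hz, h⟩, rfl⟩
    rw [h1]
    refine (EReal.le_sub_iff_add_le (Or.inl (EReal.coe_ne_bot 1)) (Or.inl (EReal.coe_ne_top 1))).2 ?_
    exact key z hz h
  rw [h1] at this ⊢
  exact (EReal.le_sub_iff_add_le (Or.inl (EReal.coe_ne_bot 1)) (Or.inl (EReal.coe_ne_top 1))).1 this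

end Pool.Agent.Results.MP_653b6e_gt.ModTwoConnectivity
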